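import Pool.Agent.helper7.EP.SpecH

/-!
# Project ep:, module CM2
-/

set_option autoImplicit false

open PowerSeries

namespace Pool.Agent.EP

theorem CM2_map : PowerSeries.map (Int.castRingHom (ZMod 2)) PPZ = helper81.PP := by
  ext n
  simp [PPZ, helper81.PP]

/-- **CM2**. -/
theorem CM2 : CM2_stmt := by
  intro m n
  have h1 : ((cm m n : ℤ) : ZMod 2) = PowerSeries.coeff n (helper81.PP ^ (8 * m)) := by
    rw [← CM2_map, ← map_pow, PowerSeries.coeff_map]
    rfl
  have h2 : helper81.PP ^ (8 * m) = PowerSeries.expand (2 ^ 3) (pow_ne_zero 3 (by norm_num))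
      (helper81.PP ^ m) := by
    rw [← helper12.PE.pow_eq_expand, ← pow_mul]
    congr 1
    ring
  rw [h1, h2]
  split_ifs with h
  · obtain ⟨k, rfl⟩ := h
    have h8 : 8 * k / 8 = k := by omega
    rw [h8]
    exact PowerSeries.coeff_expand_mul (2 ^ 3) _ _ k
  · exact PowerSeries.coeff_expand_of_not_dvd (2 ^ 3) _ _ h

end Pool.Agent.EP
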