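import Pool.Agent.helper7.EP.SpecH

/-!
# Project ep:, module ETT

`eta(z+n)^8 = e^(2 pi i n/3) eta(z)^8` for all integers `n` and all `z`.
-/

set_option autoImplicit false

namespace Pool.Agent.EP

theorem ETT_q1 (n : ℤ) (z : ℂ) :
    Function.Periodic.qParam 1 (z + n) = Function.Periodic.qParam 1 z := by
  unfold Function.Periodic.qParam
  have h : 2 * (Real.pi : ℂ) * Complex.I * (z + n) / ((1 : ℝ) : ℂ) =
      2 * (Real.pi : ℂ) * Complex.I * z / ((1 : ℝ) : ℂ) + n * (2 * Real.pi * Complex.I) := by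
    push_cast
    ring
  rw [h, Complex.exp_add, Complex.exp_int_mul_two_pi_mul_I, mul_one]

/-- **ETT**. -/
theorem ETT : ETT_stmt := by
  intro n z
  have hprod : (∏' k : ℕ, (1 - ModularForm.eta_q k (z + n))) =
      ∏' k : ℕ, (1 - ModularForm.eta_q k z) := by
    refine tprod_congr fun k => ?_
    unfold ModularForm.eta_q
    rw [ETT_q1]
  unfold ModularForm.eta
  rw [hprod, mul_pow, mul_pow, ← mul_assoc]
  congr 1
  unfold Function.Periodic.qParam
  rw [← Complex.exp_nat_mul, ← Complex.exp_nat_mul, ← Complex.exp_add]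
  congr 1
  push_cast
  ring

end Pool.Agent.EP
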