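import Pool.Agent.helper71.EP.SpecE
import Pool.Agent.helper18.TG.WT5

/-!
# Project ep (MP_ebc808_nt), module ECE
-/

set_option autoImplicit false

open Finset
open scoped Real
open Pool.Agent.helper74.TG

noncomputable section

namespace Pool.Agent.EP

theorem ECE_bil (m T : ℕ) (f f' g g' : ℕ → ℂ) :
    RR m T f f' - RR m T g g' =
      RR m T (fun x => f x - g x) f' + RR m T g (fun x => f' x - g' x) := by
  unfold RR
  rw [← sum_sub_distrib, ← sum_add_distrib]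
  refine sum_congr rfl fun t _ => ?_
  rw [← sum_sub_distrib, ← sum_add_distrib]
  refine sum_congr rfl fun y _ => ?_
  ring

theorem ECE_sq (N : ℕ) (a b : ℕ → ℂ) (A : ℝ)
    (ha : ∑ x ∈ Ioc 0 N, ‖a x‖ ^ 2 ≤ A) (hb : ∑ x ∈ Ioc 0 N, ‖b x‖ ^ 2 ≤ A) :
    ∑ x ∈ Ioc 0 N, ‖a x - b x‖ ^ 2 ≤ 4 * A := by
  have h : ∀ x ∈ Ioc 0 N, ‖a x - b x‖ ^ 2 ≤ 2 * ‖a x‖ ^ 2 + 2 * ‖b x‖ ^ 2 := by
    intro x _
    have h1 := norm_sub_le (a x) (b x)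
    have h2 := norm_nonneg (a x - b x)
    nlinarith [sq_nonneg (‖a x‖ - ‖b x‖)]
  calc _ ≤ ∑ x ∈ Ioc 0 N, (2 * ‖a x‖ ^ 2 + 2 * ‖b x‖ ^ 2) := sum_le_sum h
    _ = 2 * ∑ x ∈ Ioc 0 N, ‖a x‖ ^ 2 + 2 * ∑ x ∈ Ioc 0 N, ‖b x‖ ^ 2 := by
        rw [sum_add_distrib, mul_sum, mul_sum]
    _ ≤ 4 * A := by linarith

/-- The final inequality. -/
theorem ECE_num (m T N Z L C : ℝ) (hm : 24 ≤ m) (hT : 3 ≤ T) (hN : N = 3 * m * T ^ 2 + 6 * T)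
    (hZ : Z = 2 * (m * T + 1)) (hL : 10 ^ 16 * m ^ 3 ≤ L) (hL1 : 1 + Real.log Z ≤ L)
    (hC0 : 0 ≤ C) (hC : C ≤ 5 * Z ^ 2 * (1 + Real.log Z)) :
    (4 * (N * L ^ 25)) ^ 3 * (N / L ^ 41) ^ 2 * C ≤ (m * T ^ 3 / 200) ^ 4 := by
  have hm3 : (1 : ℝ) ≤ m ^ 3 := one_le_pow₀ (by linarith)
  have hLpos : 1 ≤ L := by linarith
  have hL0 : 0 < L := by linarith
  have hmT : 24 * 3 ≤ m * T := mul_le_mul hm hT (by norm_num) (by linarith)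
  have hZ3 : Z ≤ 3 * (m * T) := by rw [hZ]; linarith
  have hZ0 : 0 ≤ Z := by rw [hZ]; linarith
  have hN4 : N ≤ 4 * m * T ^ 2 := by
    rw [hN]
    nlinarith [mul_le_mul_of_nonneg_right hmT (by linarith : (0 : ℝ) ≤ T)]
  have hN0 : 0 ≤ N := by rw [hN]; positivity
  have hCC : C ≤ 5 * (3 * (m * T)) ^ 2 * L := by
    refine hC.trans ?_
    have h1 : 5 * Z ^ 2 ≤ 5 * (3 * (m * T)) ^ 2 := by
      have := pow_le_pow_left₀ hZ0 hZ3 2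
      linarith
    exact (mul_le_mul_of_nonneg_left hL1 (by positivity)).trans
      (mul_le_mul_of_nonneg_right h1 hL0.le)
  have e1 : (4 * (N * L ^ 25)) ^ 3 * (N / L ^ 41) ^ 2 = 64 * N ^ 5 / L ^ 7 := by
    field_simp
    ring
  have hN5 : N ^ 5 ≤ (4 * m * T ^ 2) ^ 5 := pow_le_pow_left₀ hN0 hN4 5
  have e2 : (4 * (N * L ^ 25)) ^ 3 * (N / L ^ 41) ^ 2 * C ≤
      64 * (4 * m * T ^ 2) ^ 5 / L ^ 7 * (5 * (3 * (m * T)) ^ 2 * L) := by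
    rw [e1]
    refine mul_le_mul ?_ hCC hC0 (by positivity)
    gcongr
  refine e2.trans ?_
  have e3 : 64 * (4 * m * T ^ 2) ^ 5 / L ^ 7 * (5 * (3 * (m * T)) ^ 2 * L) =
      (2949120 * m ^ 7 * T ^ 12) / L ^ 6 := by
    field_simp
    ring
  rw [e3, div_le_iff₀ (by positivity)]
  have e4 : 10 ^ 16 * m ^ 3 ≤ L ^ 6 := by
    calc 10 ^ 16 * m ^ 3 ≤ L := hL
      _ = L ^ 1 := (pow_one L).symm
      _ ≤ L ^ 6 := pow_le_pow_right₀ hLpos (by norm_num)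
  calc 2949120 * m ^ 7 * T ^ 12 ≤ (m * T ^ 3 / 200) ^ 4 * (10 ^ 16 * m ^ 3) := by
        have h7 : 0 ≤ m ^ 7 * T ^ 12 := by positivity
        have : (m * T ^ 3 / 200) ^ 4 * (10 ^ 16 * m ^ 3) = 10 ^ 16 / 200 ^ 4 * (m ^ 7 * T ^ 12) := by
          ring
        rw [this]
        nlinarith
    _ ≤ (m * T ^ 3 / 200) ^ 4 * L ^ 6 := mul_le_mul_of_nonneg_left e4 (by positivity)

theorem ECE (hEAC : EAC_stmt) (hEAS : EAS_stmt) (hEQ4 : EQ4_stmt) (hETR : ETR_stmt) :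
    ECE_stmt := by
  intro m hm h24
  have hm24 : 24 ≤ m := Nat.le_of_dvd hm h24
  have h6 : 6 ∣ m := dvd_trans (by norm_num) h24
  have hc1 : Nat.Coprime (m - 1) m := by
    have h := Nat.coprime_self_sub_right (m := 1) (n := m) hm
    have h2 : Nat.Coprime m (m - 1) := h.2 (Nat.coprime_one_right m)
    exact h2.symm
  have hc2 : Nat.Coprime 1 m := Nat.coprime_one_left m
  obtain ⟨N1, hN1⟩ := hEAC m (m - 1) hm hc1
  obtain ⟨N2, hN2⟩ := hEAC m 1 hm hc2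
  obtain ⟨N3, hN3⟩ := hEAS m (m - 1) hm h6
  obtain ⟨N4, hN4⟩ := hEAS m 1 hm h6
  obtain ⟨N5, hN5⟩ := fw_sq m (m - 1) hm
  obtain ⟨N6, hN6⟩ := fw_sq m 1 hm
  have hev : ∀ᶠ x : ℝ in Filter.atTop, 10 ^ 16 * (m : ℝ) ^ 3 ≤ Real.log x :=
    Real.tendsto_log_atTop.eventually_ge_atTop _
  obtain ⟨N7, hN7⟩ := Filter.eventually_atTop.1
    ((tendsto_natCast_atTop_atTop (R := ℝ)).eventually hev)
  refine ⟨N1 + N2 + N3 + N4 + N5 + N6 + N7 + 3, fun T hT => ?_⟩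
  have hTN : T ≤ hq m T := by unfold hq; nlinarith [Nat.zero_le (3 * m * T ^ 2)]
  have k1 := hN1 (hq m T) (by omega)
  have k2 := hN2 (hq m T) (by omega)
  have k3 := hN3 (hq m T) (by omega)
  have k4 := hN4 (hq m T) (by omega)
  have k5 := hN5 (hq m T) (by omega)
  have k6 := hN6 (hq m T) (by omega)
  have k7 : 10 ^ 16 * (m : ℝ) ^ 3 ≤ Real.log (hq m T) := hN7 (hq m T) (by omega)
  have hT3 : 3 ≤ T := by omega
  have hmR : (24 : ℝ) ≤ m := by exact_mod_cast hm24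
  have hTR : (3 : ℝ) ≤ T := by exact_mod_cast hT3
  have hNR : ((hq m T : ℕ) : ℝ) = 3 * m * (T : ℝ) ^ 2 + 6 * T := by unfold hq; push_cast; ring
  have hQ := hEQ4 m T hm
  set N : ℕ := hq m T with hNdef
  set L : ℝ := Real.log N with hLdef
  set Q : ℕ := ⌊L ^ 96⌋₊ with hQdef
  have hZR : ((2 * (m * T + 1) : ℕ) : ℝ) = 2 * ((m : ℝ) * T + 1) := by push_cast; ring
  have hm3 : (1 : ℝ) ≤ (m : ℝ) ^ 3 := one_le_pow₀ (by linarith)
  have hL1 : 1 ≤ L := by linarith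
  have hN0 : (0 : ℝ) ≤ N := Nat.cast_nonneg N
  have hL25 : N * L ^ 12 ≤ N * L ^ 25 :=
    mul_le_mul_of_nonneg_left (pow_le_pow_right₀ hL1 (by norm_num)) hN0
  have hNL : 0 ≤ (N : ℝ) * L ^ 25 := by positivity
  have hZpos : (0 : ℝ) < ((2 * (m * T + 1) : ℕ) : ℝ) := by positivity
  have hlogZ : 1 + Real.log ((2 * (m * T + 1) : ℕ) : ℝ) ≤ L := by
    have h1 : 3 * ((2 * (m * T + 1) : ℕ) : ℝ) ≤ N := by
      rw [hNR, hZR]
      nlinarith [mul_le_mul_of_nonneg_left hTR (by positivity : (0 : ℝ) ≤ m * T)]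
    have h2 : Real.log (3 * ((2 * (m * T + 1) : ℕ) : ℝ)) ≤ L :=
      Real.log_le_log (by positivity) h1
    rw [Real.log_mul (by norm_num) hZpos.ne'] at h2
    have h3 : 1 ≤ Real.log 3 := by
      rw [Real.le_log_iff_exp_le (by norm_num)]
      linarith [Real.exp_one_lt_d9]
    linarith
  have hfin : (4 * (N * L ^ 25)) ^ 3 * (N / L ^ 41) ^ 2 * (#(Qd m T) : ℝ) ≤
      (m * (T : ℝ) ^ 3 / 200) ^ 4 :=
    ECE_num m T N ((2 * (m * T + 1) : ℕ) : ℝ) L _ hmR hTR hNR hZR k7 hlogZ (Nat.cast_nonneg _) hQ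
  have h0 : (0 : ℝ) ≤ m * (T : ℝ) ^ 3 / 200 := by positivity
  have t1 := hETR m T (fun x => (fw m (m - 1) x : ℂ) - gm m (m - 1) Q x)
    (fun y => (fw m 1 y : ℂ)) (N / L ^ 41) (4 * (N * L ^ 25))
    (ECE_sq N _ _ _ (k5.trans hL25) k3) (by linarith) (Or.inl k1)
  have t2 := hETR m T (gm m (m - 1) Q) (fun x => (fw m 1 x : ℂ) - gm m 1 Q x)
    (N / L ^ 41) (4 * (N * L ^ 25)) (by linarith)
    (ECE_sq N _ _ _ (k6.trans hL25) k4) (Or.inr k2)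
  have s1 := (pow_le_pow_iff_left₀ (norm_nonneg _) h0 (by norm_num : (4 : ℕ) ≠ 0)).1 (t1.trans hfin)
  have s2 := (pow_le_pow_iff_left₀ (norm_nonneg _) h0 (by norm_num : (4 : ℕ) ≠ 0)).1 (t2.trans hfin)
  rw [ECE_bil]
  refine (norm_add_le _ _).trans ?_
  linarith

end Pool.Agent.EP
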